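import Pool.Agent.helper88.T7.SpecR7

/-!
# Row ZCA of T7
-/

set_option autoImplicit false

namespace Pool.Agent.T7

open Finset NumberField Pool.Agent.helper3.FT Pool.Agent.helper47.RA Pool.Agent.T5 Pool.Agent.T6
open scoped nonZeroDivisors

theorem ZCA_one (h2 : SC1_stmt) (N Y : ℝ) (hN : 0 < N) (hY : 0 < Y) (hYN : Y ≤ 1 / 4 * √N) (D : ℤ) (hD : D ∈ DN N) :
    (cA D Y : ℝ) ≤ SF (fC Y) D := by
  obtain ⟨E, hE1, hE2, -, hE4, hE5, -, hE7, -⟩ := ZL_fld N D hD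
  rw [hE1 (fC Y), hE2 Y]
  show ((IA E.K Y).ncard : ℝ) ≤ ((CLS E.K Y).ncard : ℝ)
  obtain ⟨J, hJ⟩ := pow_unbounded_of_one_lt Y (by norm_num : (1 : ℝ) < 2)
  have hJ1 : Y < 2 ^ (J + 1) := by
    rw [pow_succ]
    have : (0 : ℝ) < 2 ^ J := by positivity
    linarith
  have hs : √N * √N = N := Real.mul_self_sqrt hN.le
  have hs0 : 0 ≤ √N := Real.sqrt_nonneg N
  have h4 : 4 * Y ^ 2 < -(E.Q.D : ℝ) := by
    rw [hE4]
    have h5 : Y ^ 2 ≤ (1 / 4 * √N) ^ 2 := pow_le_pow_left₀ hY.le hYN 2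
    have h6 : (1 / 4 * √N) ^ 2 = N / 16 := by
      rw [mul_pow, sq (√N), hs]
      ring
    rw [h6] at h5
    linarith
  have h7 := (h2 E.K E.Q E.fin (by rw [hE4]; exact hE5) Y (J + 1) hY hJ1).2 h4
  have h8 : (IA E.K Y).ncard ≤ (CLS E.K Y).ncard := by
    rw [h7]
    have h9 : (IA E.K (Y / 2 ^ 0)).ncard ≤ ∑ j ∈ range (J + 1), (IA E.K (Y / 2 ^ j)).ncard :=
      Finset.single_le_sum (f := fun j => (IA E.K (Y / 2 ^ j)).ncard) (fun _ _ => Nat.zero_le _)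
        (Finset.mem_range.mpr (Nat.succ_pos J))
    rw [pow_zero, div_one] at h9
    exact h9
  exact_mod_cast h8

theorem ZCA (h1 : ZTA_stmt) (h2 : SC1_stmt) : ZCA_stmt := by
  obtain ⟨δ, C, N₀, hδ, -, hC, h⟩ := h1
  refine ⟨δ, C, 1 / 4, max N₀ 1, hδ, hC, by norm_num, fun N Y hN hY1 hY2 => ?_⟩
  have hN1 : 1 ≤ N := (le_max_right _ _).trans hN
  have hN0 : N₀ ≤ N := (le_max_left _ _).trans hN
  have hNpos : 0 < N := by linarith
  have hs0 : 0 ≤ √N := Real.sqrt_nonneg N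
  have hY : 0 < Y := lt_of_lt_of_le (Real.rpow_pos_of_pos hNpos _) hY1
  have h3 := h N Y hN0 hY1 (by linarith)
  refine le_trans ?_ h3
  unfold TD7
  exact Finset.sum_le_sum fun D hD => ZCA_one h2 N Y hNpos hY hY2 D hD

end Pool.Agent.T7
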