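import Pool.Agent.helper88.T7.SpecR7

/-!
# Row ZTC of T7
-/

set_option autoImplicit false

namespace Pool.Agent.T7

open Finset NumberField Pool.Agent.helper3.FT Pool.Agent.helper47.RA Pool.Agent.T5 Pool.Agent.T6
open scoped nonZeroDivisors

theorem ZTC_T : ∃ T : ℝ, 1 ≤ T ∧ ∀ N : ℝ, T ≤ N → (2001 : ℝ) ≤ N ^ (0.002 : ℝ) := by
  refine ⟨(2001 : ℝ) ^ (500 : ℝ), Real.one_le_rpow (by norm_num) (by norm_num), fun N hN => ?_⟩
  have h0 : (0 : ℝ) ≤ (2001 : ℝ) ^ (500 : ℝ) := Real.rpow_nonneg (by norm_num) _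
  have h9 : ((2001 : ℝ) ^ (500 : ℝ)) ^ (0.002 : ℝ) ≤ N ^ (0.002 : ℝ) := Real.rpow_le_rpow h0 hN (by norm_num)
  have h10 : ((2001 : ℝ) ^ (500 : ℝ)) ^ (0.002 : ℝ) = 2001 := by
    rw [← Real.rpow_mul (by norm_num)]
    norm_num
  rwa [h10] at h9

theorem ZTC_J (N Y : ℝ) (J : ℕ) (hN1 : 1 ≤ N) (h8 : (2001 : ℝ) ≤ N ^ (0.002 : ℝ)) (hY : (2 : ℝ) ^ J ≤ Y) (hYN : Y ≤ √N) :
    (J : ℝ) + 1 ≤ N ^ (0.003 : ℝ) := by
  have hN0 : 0 < N := by linarith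
  have h2 : (0 : ℝ) < 2 ^ J := by positivity
  have h3 : Real.log ((2 : ℝ) ^ J) ≤ Real.log (√N) := Real.log_le_log h2 (hY.trans hYN)
  rw [Real.log_pow, Real.log_sqrt hN0.le] at h3
  have h4 := Real.log_two_gt_d9
  have hJ0 : (0 : ℝ) ≤ J := Nat.cast_nonneg J
  have h5 : (J : ℝ) ≤ Real.log N := by nlinarith
  have h6 : Real.log N ≤ N ^ (0.001 : ℝ) / 0.001 := Real.log_le_rpow_div hN0.le (by norm_num)
  have h7 : (1 : ℝ) ≤ N ^ (0.001 : ℝ) := Real.one_le_rpow hN1 (by norm_num)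
  have h11 : N ^ (0.003 : ℝ) = N ^ (0.002 : ℝ) * N ^ (0.001 : ℝ) := by
    rw [← Real.rpow_add hN0]
    norm_num
  rw [h11]
  have h12 : N ^ (0.001 : ℝ) / 0.001 = 1000 * N ^ (0.001 : ℝ) := by ring
  rw [h12] at h6
  nlinarith

theorem ZTC_one (h4 : SC1_stmt) (N Y : ℝ) (J : ℕ) (hY : 0 < Y) (hJ : Y < 2 ^ J) (D : ℤ) (hD : D ∈ DN N) :
    SF (fC Y) D ≤ ∑ j ∈ range J, (cA D (Y / 2 ^ j) : ℝ) := by
  obtain ⟨E, hE1, hE2, -, hE4, hE5, -, -, -⟩ := ZL_fld N D hD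
  rw [hE1 (fC Y)]
  show ((CLS E.K Y).ncard : ℝ) ≤ _
  have h7 := (h4 E.K E.Q E.fin (by rw [hE4]; exact hE5) Y J hY hJ).1
  simp only [hE2]
  exact_mod_cast h7

theorem ZTC (h1 : ZTA_stmt) (h2 : ∀ δ : ℝ, 0 < δ → δ ≤ 1 / 10 → SLU_stmt δ) (h3 : U_stmt) (h4 : SC1_stmt) : ZTC_stmt := by
  obtain ⟨δ, C₁, N₁, hδ0, hδ1, hC₁, hA⟩ := h1
  obtain ⟨N₂, hB⟩ := h2 δ hδ0 hδ1 1 one_pos
  obtain ⟨C₂, hC₂, hU⟩ := h3 (1 / 1000) (by norm_num)
  have hc0 : 0 ≤ |c0| := abs_nonneg c0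
  obtain ⟨T, hT1, hT2⟩ := ZTC_T
  refine ⟨C₁ + (2 * (|c0| + 1) + C₂), max (max N₁ N₂) T, by linarith, fun N Y hN hY1 hY2 => ?_⟩
  have hNa : N₁ ≤ N := ((le_max_left _ _).trans (le_max_left _ _)).trans hN
  have hNb : N₂ ≤ N := ((le_max_right _ _).trans (le_max_left _ _)).trans hN
  have hNc : T ≤ N := (le_max_right _ _).trans hN
  have hN1 : 1 ≤ N := hT1.trans hNc
  have hN0 : 0 < N := by linarith
  have hYge : 1 ≤ Y := (Real.one_le_rpow hN1 (by norm_num)).trans hY1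
  have hY0 : 0 < Y := by linarith
  have hs0 : 0 < √N := Real.sqrt_pos.mpr hN0
  have hP : 0 < Y * √N := mul_pos hY0 hs0
  by_cases hc : N ^ (1 / 2 - δ) ≤ Y
  · refine (hA N Y hNa hc hY2).trans ?_
    refine mul_le_mul_of_nonneg_right ?_ hP.le
    linarith
  · rw [not_le] at hc
    obtain ⟨J, hJ1, hJ2⟩ := exists_nat_pow_near hYge (by norm_num : (1 : ℝ) < 2)
    have hJN := ZTC_J N Y J hN1 (hT2 N hNc) hJ1 hY2
    have hone : ∀ j ∈ range (J + 1), ∑ D ∈ DN N, (cA D (Y / 2 ^ j) : ℝ) ≤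
        (|c0| + 1) * (Y * √N) * (1 / 2 ^ j) + C₂ * (N ^ (0.392 : ℝ) * √N) := by
      intro j hj
      rw [Finset.mem_range] at hj
      have hpj : (0 : ℝ) < 2 ^ j := by positivity
      have hjJ : (2 : ℝ) ^ j ≤ 2 ^ J := pow_le_pow_right₀ (by norm_num) (by omega)
      have hge : 1 ≤ Y / 2 ^ j := by
        rw [le_div_iff₀ hpj]
        linarith
      have hle : Y / 2 ^ j ≤ Y := by
        rw [div_le_iff₀ hpj]
        have : (1 : ℝ) ≤ 2 ^ j := one_le_pow₀ (by norm_num)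
        nlinarith
      have hx0 : 0 ≤ C₂ * (N ^ (0.392 : ℝ) * √N) := mul_nonneg (by linarith) (mul_nonneg (Real.rpow_nonneg hN0.le _) hs0.le)
      by_cases hcj : N ^ (0.39 : ℝ) ≤ Y / 2 ^ j
      · have h5 := hB N (Y / 2 ^ j) hNb hcj (by linarith)
        have h6 : (c0 + 1) * (Y / 2 ^ j * √N) ≤ (|c0| + 1) * (Y / 2 ^ j * √N) := by
          refine mul_le_mul_of_nonneg_right ?_ (by positivity)
          linarith [le_abs_self c0]
        have h7 : (|c0| + 1) * (Y / 2 ^ j * √N) = (|c0| + 1) * (Y * √N) * (1 / 2 ^ j) := by ring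
        linarith
      · rw [not_le] at hcj
        have h5 := hU N (Y / 2 ^ j) hN1 hge
        have h6 : Y / 2 ^ j ≤ N := by
          have h8 : N ^ (0.39 : ℝ) ≤ N ^ (1 : ℝ) := Real.rpow_le_rpow_of_exponent_le hN1 (by norm_num)
          rw [Real.rpow_one] at h8
          linarith
        have h7 : (N * (Y / 2 ^ j)) ^ (1 / 1000 : ℝ) ≤ N ^ (0.002 : ℝ) := by
          have h8 : (N * (Y / 2 ^ j)) ^ (1 / 1000 : ℝ) ≤ (N * N) ^ (1 / 1000 : ℝ) :=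
            Real.rpow_le_rpow (by positivity) (mul_le_mul_of_nonneg_left h6 hN0.le) (by norm_num)
          have h9 : (N * N) ^ (1 / 1000 : ℝ) = N ^ (0.002 : ℝ) := by
            rw [Real.mul_rpow hN0.le hN0.le, ← Real.rpow_add hN0]
            norm_num
          rwa [h9] at h8
        have h8 : C₂ * (N * (Y / 2 ^ j)) ^ (1 / 1000 : ℝ) * (Y / 2 ^ j * √N) ≤ C₂ * (N ^ (0.392 : ℝ) * √N) := by
          have h9 : N ^ (0.392 : ℝ) = N ^ (0.002 : ℝ) * N ^ (0.39 : ℝ) := by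
            rw [← Real.rpow_add hN0]
            norm_num
          rw [h9]
          have h10 : (N * (Y / 2 ^ j)) ^ (1 / 1000 : ℝ) * (Y / 2 ^ j * √N) ≤ N ^ (0.002 : ℝ) * (N ^ (0.39 : ℝ) * √N) := by
            refine mul_le_mul h7 ?_ (by positivity) (by positivity)
            exact mul_le_mul_of_nonneg_right hcj.le hs0.le
          calc C₂ * (N * (Y / 2 ^ j)) ^ (1 / 1000 : ℝ) * (Y / 2 ^ j * √N)
              = C₂ * ((N * (Y / 2 ^ j)) ^ (1 / 1000 : ℝ) * (Y / 2 ^ j * √N)) := by ring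
            _ ≤ C₂ * (N ^ (0.002 : ℝ) * (N ^ (0.39 : ℝ) * √N)) := mul_le_mul_of_nonneg_left h10 (by linarith)
            _ = C₂ * (N ^ (0.002 : ℝ) * N ^ (0.39 : ℝ) * √N) := by ring
        have h11 : 0 ≤ (|c0| + 1) * (Y * √N) * (1 / 2 ^ j) := by positivity
        linarith
    calc TD7 (fC Y) N ≤ ∑ D ∈ DN N, ∑ j ∈ range (J + 1), (cA D (Y / 2 ^ j) : ℝ) :=
          Finset.sum_le_sum fun D hD => ZTC_one h4 N Y (J + 1) hY0 hJ2 D hD
      _ = ∑ j ∈ range (J + 1), ∑ D ∈ DN N, (cA D (Y / 2 ^ j) : ℝ) := Finset.sum_comm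
      _ ≤ ∑ j ∈ range (J + 1), ((|c0| + 1) * (Y * √N) * (1 / 2 ^ j) + C₂ * (N ^ (0.392 : ℝ) * √N)) := Finset.sum_le_sum hone
      _ = (|c0| + 1) * (Y * √N) * ∑ j ∈ range (J + 1), (1 : ℝ) / 2 ^ j + ((J : ℝ) + 1) * (C₂ * (N ^ (0.392 : ℝ) * √N)) := by
          rw [Finset.sum_add_distrib, ← Finset.mul_sum, Finset.sum_const, Finset.card_range, nsmul_eq_mul]
          push_cast
          ring
      _ ≤ (|c0| + 1) * (Y * √N) * 2 + N ^ (0.003 : ℝ) * (C₂ * (N ^ (0.392 : ℝ) * √N)) := by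
          refine add_le_add (mul_le_mul_of_nonneg_left (ZL_geo _) (by positivity)) ?_
          exact mul_le_mul_of_nonneg_right hJN (by positivity)
      _ = (|c0| + 1) * (Y * √N) * 2 + C₂ * (N ^ (0.395 : ℝ) * √N) := by
          have h9 : N ^ (0.395 : ℝ) = N ^ (0.003 : ℝ) * N ^ (0.392 : ℝ) := by
            rw [← Real.rpow_add hN0]
            norm_num
          rw [h9]
          ring
      _ ≤ (|c0| + 1) * (Y * √N) * 2 + C₂ * (Y * √N) := by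
          refine add_le_add le_rfl (mul_le_mul_of_nonneg_left ?_ (by linarith))
          exact mul_le_mul_of_nonneg_right hY1 hs0.le
      _ ≤ (C₁ + (2 * (|c0| + 1) + C₂)) * (Y * √N) := by nlinarith

end Pool.Agent.T7
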